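import Pool.Agent.H5.FlowLow4

set_option autoImplicit false

namespace Pool.Agent.Results.MP_76bad1_co.Yes
open Pool.Agent.H5.FlowLow Polynomial

open Classical in
/-- For every simple connected bridgeless cubic graph on `n ≥ 6` vertices, the absolute values of
the coefficients of the flow polynomial dominate those of `(t+1)(t+2)^(n/2-2)(t+3)^2`. -/
theorem result {V : Type} [Fintype V] (G : SimpleGraph V) (hc : G.Connected)
    (hb : ∀ e ∈ G.edgeSet, ¬ G.IsBridge e) (h3 : ∀ u, G.degree u = 3)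
    (hn : 6 ≤ Fintype.card V) (i : ℕ) :
    ((X + 1) * (X + 2) ^ (Fintype.card V / 2 - 2) * (X + 3) ^ 2 : ℤ[X]).coeff i ≤
      |(flowPoly G).coeff i| :=
  Cub.main ⟨hc, hb, h3⟩ hn i

end Pool.Agent.Results.MP_76bad1_co.Yes
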